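import Mathlib

/-!
# Lemma M: a function of low degree plus a monodromy character on a Bohr set

`DegLT n p` says that `p : (Fin r → ℕ) → k` has degree `< n` (all `n`-fold forward
differences vanish).
-/

namespace Pool.Agent.Helper41.ZD

open Finset

variable {k : Type*} [Field k]

/-- degree `< n`: all `n`-fold forward differences vanish. -/
def DegLT {r : ℕ} : ℕ → ((Fin r → ℕ) → k) → Prop
  | 0, p => ∀ x, p x = 0
  | n + 1, p => ∀ i : Fin r, DegLT n (fun x => p (x + Pi.single i 1) - p x)

theorem DegLT.sub {r : ℕ} : ∀ {n : ℕ} {p q : (Fin r → ℕ) → k}, DegLT n p → DegLT n q →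
    DegLT n (fun x => p x - q x)
  | 0, p, q, hp, hq => by intro x; simp [hp x, hq x]
  | n + 1, p, q, hp, hq => by
      intro i
      have h := DegLT.sub (hp i) (hq i)
      have e : (fun x => (fun x => p (x + Pi.single i 1) - p x) x -
          (fun x => q (x + Pi.single i 1) - q x) x) =
          (fun x => (fun x => p x - q x) (x + Pi.single i 1) - (fun x => p x - q x) x) := by
        funext x; simp only; ring
      rw [← e]; exact h

theorem DegLT.diff {r : ℕ} {n : ℕ} {p : (Fin r → ℕ) → k} (hp : DegLT (n + 1) p)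
    (i j : Fin r) : DegLT n (fun x => p (x + Pi.single i 1) - p (x + Pi.single j 1)) := by
  have h := DegLT.sub (hp i) (hp j)
  have e : (fun x => (fun x => p (x + Pi.single i 1) - p x) x -
      (fun x => p (x + Pi.single j 1) - p x) x) =
      (fun x => p (x + Pi.single i 1) - p (x + Pi.single j 1)) := by
    funext x; simp only; ring
  rw [← e]; exact h

/-- one variable: `n`-fold forward differences vanish. -/
def Deg1 : ℕ → (ℕ → k) → Prop
  | 0, g => ∀ x, g x = 0
  | n + 1, g => Deg1 n (fun x => g (x + 1) - g x)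

theorem Deg1.zero : ∀ {n : ℕ} {g : ℕ → k}, Deg1 n g → (∀ a, 1 ≤ a → a ≤ n → g a = 0) →
    ∀ N, g N = 0
  | 0, g, hg, _ => hg
  | n + 1, g, hg, h => by
      have hd : ∀ N, g (N + 1) - g N = 0 := by
        apply Deg1.zero (n := n) hg
        intro a ha hb
        show g (a + 1) - g a = 0
        rw [h (a + 1) (by omega) (by omega), h a ha (by omega)]; simp
      have h1 : g 1 = 0 := h 1 le_rfl (by omega)
      have h0 : g 0 = 0 := by
        have := hd 0
        simp only [zero_add] at this
        rw [h1] at this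
        simpa using this
      intro N
      induction N with
      | zero => exact h0
      | succ N ih =>
        have := hd N
        rw [ih] at this
        simpa using this

theorem DegLT.restrict {r : ℕ} (i : Fin r) : ∀ {n : ℕ} {p : (Fin r → ℕ) → k}, DegLT n p →
    Deg1 n (fun N => p (Pi.single i N))
  | 0, p, hp => fun N => hp _
  | n + 1, p, hp => by
      have h := DegLT.restrict i (hp i)
      show Deg1 n _
      have e : (fun N => (fun x => p (x + Pi.single i 1) - p x) (Pi.single i N)) =
          (fun N : ℕ => (fun N => p (Pi.single i N)) (N + 1) - (fun N => p (Pi.single i N)) N) := by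
        funext N
        simp only
        rw [← Pi.single_add]
      rw [← e]; exact h

/-- Some `θ i` lies in a given half open arc of length `2/(m+1)`. -/
theorem exists_arc {m : ℕ} (hm : 1 ≤ m) (th : Fin (m + 1) → ℝ)
    (hth : ∀ i : Fin (m + 1), (i : ℝ) / (m + 1) ≤ th i ∧ th i < ((i : ℝ) + 1) / (m + 1))
    (psi : ℝ) : ∃ i, Int.fract (psi + th i) < 2 / (m + 1) := by
  have hm0 : (0 : ℝ) < m + 1 := by positivity
  have hm2 : (2 : ℝ) / (m + 1) ≤ 1 := by
    rw [div_le_one hm0]
    have : (1 : ℝ) ≤ m := by exact_mod_cast hm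
    linarith
  set u := Int.fract (-psi) with hu
  have hu0 : 0 ≤ u := Int.fract_nonneg _
  have hu1 : u < 1 := Int.fract_lt_one _
  have hpsi : ∃ z : ℤ, psi = z - u := by
    refine ⟨-⌊-psi⌋, ?_⟩
    have := Int.floor_add_fract (-psi)
    push_cast
    linarith
  obtain ⟨z, hz⟩ := hpsi
  set c : ℕ := ⌈u * (m + 1)⌉₊ with hc
  have hc1 : u * (m + 1) ≤ c := Nat.le_ceil _
  have hc2 : (c : ℝ) < u * (m + 1) + 1 := Nat.ceil_lt_add_one (by positivity)
  by_cases hcm : c < m + 1
  · refine ⟨⟨c, hcm⟩, ?_⟩
    obtain ⟨h1, h2⟩ := hth ⟨c, hcm⟩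
    simp only at h1 h2
    have e1 : u ≤ th ⟨c, hcm⟩ := le_trans ((le_div_iff₀ hm0).2 hc1) h1
    have e2 : th ⟨c, hcm⟩ - u < 2 / (m + 1) := by
      have : th ⟨c, hcm⟩ < (u * (m + 1) + 2) / (m + 1) :=
        lt_trans h2 (by rw [div_lt_div_iff_of_pos_right hm0]; linarith)
      have e : (u * (m + 1) + 2) / ((m : ℝ) + 1) = u + 2 / (m + 1) := by field_simp
      linarith
    have e3 : psi + th ⟨c, hcm⟩ = z + (th ⟨c, hcm⟩ - u) := by rw [hz]; ring
    rw [e3, Int.fract_intCast_add, Int.fract_eq_self.2 ⟨by linarith, by linarith⟩]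
    exact e2
  · refine ⟨0, ?_⟩
    obtain ⟨h1, h2⟩ := hth 0
    simp only [Fin.val_zero, Nat.cast_zero, zero_div, zero_add] at h1 h2
    have hcm' : m + 1 ≤ c := not_lt.1 hcm
    have hcm'' : ((m : ℝ) + 1) ≤ c := by exact_mod_cast hcm'
    have e1 : (1 - u) < 1 / (m + 1) := by
      rw [lt_div_iff₀ hm0]; nlinarith
    have e2 : th 0 + (1 - u) < 2 / (m + 1) := by
      have : (2 : ℝ) / (m + 1) = 1 / (m + 1) + 1 / (m + 1) := by ring
      rw [this]; linarith
    have e3 : psi + th 0 = ((z - 1 : ℤ) : ℝ) + (th 0 + (1 - u)) := by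
      rw [hz]; push_cast; ring
    rw [e3, Int.fract_intCast_add, Int.fract_eq_self.2 ⟨by linarith, by linarith⟩]
    exact e2

/-- `θ · x`. -/
noncomputable def dot {r : ℕ} (th : Fin r → ℝ) (x : Fin r → ℕ) : ℝ := ∑ i, th i * (x i : ℝ)

theorem dot_add {r : ℕ} (th : Fin r → ℝ) (x y : Fin r → ℕ) :
    dot th (x + y) = dot th x + dot th y := by
  simp [dot, mul_add, Finset.sum_add_distrib]

theorem dot_single {r : ℕ} (th : Fin r → ℝ) (i : Fin r) (n : ℕ) :
    dot th (Pi.single i n) = th i * n := by
  unfold dot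
  rw [Finset.sum_eq_single i]
  · simp
  · intro b _ hb; simp [Pi.single_eq_of_ne hb]
  · simp

/-- the monomial `lam ^ x`. -/
def mon {r : ℕ} (lam : Fin r → k) (x : Fin r → ℕ) : k := ∏ i, lam i ^ x i

theorem mon_add {r : ℕ} (lam : Fin r → k) (x y : Fin r → ℕ) :
    mon lam (x + y) = mon lam x * mon lam y := by
  simp [mon, pow_add, Finset.prod_mul_distrib]

theorem mon_single {r : ℕ} (lam : Fin r → k) (i : Fin r) (n : ℕ) :
    mon lam (Pi.single i n) = lam i ^ n := by
  unfold mon
  rw [Finset.prod_eq_single i]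
  · simp
  · intro b _ hb; simp [Pi.single_eq_of_ne hb]
  · simp

theorem mon_ne_zero {r : ℕ} {lam : Fin r → k} (h : ∀ i, lam i ≠ 0) (x : Fin r → ℕ) :
    mon lam x ≠ 0 := Finset.prod_ne_zero_iff.2 fun i _ => pow_ne_zero _ (h i)

theorem sum_add_single {r : ℕ} (x : Fin r → ℕ) (i : Fin r) (n : ℕ) :
    ∑ j : Fin r, (x + Pi.single i n : Fin r → ℕ) j = ∑ j, x j + n := by
  simp only [Pi.add_apply, Finset.sum_add_distrib]
  congr 1
  rw [Finset.sum_eq_single i]
  · simp
  · intro b _ hb; simp [Pi.single_eq_of_ne hb]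
  · simp

omit [Field k] in
/-- A function invariant under all moves of one unit depends only on `∑ x`. -/
theorem eq_of_moves {m : ℕ} {p : (Fin (m + 1) → ℕ) → k}
    (h : ∀ (i : Fin (m + 1)) (x : Fin (m + 1) → ℕ),
      p (x + Pi.single i 1) = p (x + Pi.single 0 1)) :
    ∀ (s : ℕ) (x : Fin (m + 1) → ℕ), (∑ i : Fin m, x i.succ = s) →
      p x = p (Pi.single 0 (∑ i, x i)) := by
  intro s
  induction s with
  | zero =>
    intro x hx
    have h0 : ∀ i : Fin m, x i.succ = 0 := by
      intro i
      exact (Finset.sum_eq_zero_iff.1 hx) i (Finset.mem_univ _)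
    congr 1
    funext j
    refine Fin.cases ?_ (fun i => ?_) j
    · simp [Fin.sum_univ_succ, h0]
    · simp [h0 i]
  | succ s ih =>
    intro x hx
    have : ∃ i : Fin m, x i.succ ≠ 0 := by
      by_contra hcon
      push Not at hcon
      have : ∑ i : Fin m, x i.succ = 0 := Finset.sum_eq_zero fun i _ => hcon i
      omega
    obtain ⟨i, hi⟩ := this
    set y : Fin (m + 1) → ℕ := Function.update x i.succ (x i.succ - 1) with hy
    have hxy : x = y + Pi.single i.succ 1 := by
      funext j
      by_cases hj : j = i.succ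
      · subst hj
        simp [hy]; omega
      · simp [hy, Function.update_of_ne hj, Pi.single_eq_of_ne hj]
    rw [hxy, h i.succ y]
    have hs : ∑ j : Fin (m + 1), (y + Pi.single i.succ 1 : Fin (m + 1) → ℕ) j =
        ∑ j : Fin (m + 1), (y + Pi.single (0 : Fin (m + 1)) 1 : Fin (m + 1) → ℕ) j := by
      rw [sum_add_single, sum_add_single]
    rw [hs]
    apply ih
    have h1 : ∑ j : Fin m, x j.succ = ∑ j : Fin m, y j.succ + 1 := by
      have : ∀ j : Fin m, x j.succ = y j.succ + (if j = i then 1 else 0) := by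
        intro j
        rw [hxy]
        by_cases hj : j = i
        · subst hj; simp
        · have : j.succ ≠ i.succ := fun hh => hj (Fin.succ_injective _ hh)
          simp [hj]
      rw [Finset.sum_congr rfl (fun j _ => this j), Finset.sum_add_distrib]
      simp
    have h2 : ∑ j : Fin m, (y + Pi.single (0 : Fin (m + 1)) 1 : Fin (m + 1) → ℕ) j.succ =
        ∑ j : Fin m, y j.succ := by
      apply Finset.sum_congr rfl
      intro j _
      simp
    rw [h2]; omega

/-- **Lemma M.** -/
theorem lemmaM {m : ℕ} (hm : 1 ≤ m) (th : Fin (m + 1) → ℝ)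
    (hth : ∀ i : Fin (m + 1), (i : ℝ) / (m + 1) ≤ th i ∧ th i < ((i : ℝ) + 1) / (m + 1))
    (lam : Fin (m + 1) → k) (hlam : ∀ i, lam i ≠ 0) (kap : k) (hkap0 : kap ≠ 0)
    (hkap : kap ≠ 1) :
    ∀ (n : ℕ) (p : (Fin (m + 1) → ℕ) → k), DegLT n p → ∀ (w : k) (phi t : ℝ),
      2 * (n + 1) / ((m : ℝ) + 1) ≤ t → t ≤ 1 →
      (∀ x : Fin (m + 1) → ℕ, ∑ i, x i ≤ n + 1 → Int.fract (dot th x + phi) < t →
        p x + w * (mon lam x * kap ^ (-⌊dot th x + phi⌋)) = 0) →
      w = 0 ∧ ∀ x, p x = 0 := by
  have hm0 : (0 : ℝ) < m + 1 := by positivity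
  intro n
  induction n with
  | zero =>
    intro p hp w phi t ht ht1 h
    refine ⟨?_, hp⟩
    obtain ⟨i, hi⟩ := exists_arc hm th hth phi
    have hx := h (Pi.single i 1) (by
        have := sum_add_single (0 : Fin (m + 1) → ℕ) i 1
        simp only [zero_add, Pi.zero_apply, Finset.sum_const_zero] at this
        rw [this]) (by
        rw [dot_single]
        have e : th i * ((1 : ℕ) : ℝ) + phi = phi + th i := by push_cast; ring
        rw [e]
        refine lt_of_lt_of_le hi (le_trans (le_of_eq ?_) ht)
        push_cast; ring)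
    rw [hp, zero_add] at hx
    rcases mul_eq_zero.1 hx with h0 | h0
    · exact h0
    · exact absurd h0 (mul_ne_zero (mon_ne_zero hlam _) (zpow_ne_zero _ hkap0))
  | succ n ih =>
    intro p hp w phi t ht ht1 h
    have h2r : (2 : ℝ) / (m + 1) > 0 := by positivity
    have ht' : 2 * (n + 1) / ((m : ℝ) + 1) ≤ t - 2 / (m + 1) := by
      have e : 2 * (((n + 1 : ℕ) : ℝ) + 1) / ((m : ℝ) + 1) =
          2 * (n + 1) / ((m : ℝ) + 1) + 2 / (m + 1) := by push_cast; ring
      rw [e] at ht; linarith
    have ht1' : t - 2 / ((m : ℝ) + 1) ≤ 1 := by linarith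
    -- neighbours
    have key1 : ∀ i : Fin m, w * (lam i.castSucc - lam i.succ) = 0 ∧
        ∀ x : Fin (m + 1) → ℕ,
          p (x + Pi.single i.castSucc 1) - p (x + Pi.single i.succ 1) = 0 := by
      intro i
      refine ih (fun x => p (x + Pi.single i.castSucc 1) - p (x + Pi.single i.succ 1))
        (hp.diff _ _) (w * (lam i.castSucc - lam i.succ)) (phi + th i.castSucc) _ ht' ht1' ?_
      intro x hx hfr
      obtain ⟨a1, a2⟩ := hth i.castSucc
      obtain ⟨b1, b2⟩ := hth i.succ
      simp only [Fin.val_castSucc, Fin.val_succ] at a1 a2 b1 b2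
      push_cast at a1 a2 b1 b2
      have hgap0 : 0 ≤ th i.succ - th i.castSucc := by linarith
      have hgap : th i.succ - th i.castSucc < 2 / (m + 1) := by
        have : ((i : ℝ) + 1 + 1) / (m + 1) - (i : ℝ) / (m + 1) = 2 / (m + 1) := by ring
        linarith
      set v := dot th x + (phi + th i.castSucc) with hv
      have e1 : dot th (x + Pi.single i.castSucc 1) + phi = v := by
        rw [dot_add, dot_single, hv]; push_cast; ring
      have e2 : dot th (x + Pi.single i.succ 1) + phi = v + (th i.succ - th i.castSucc) := by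
        rw [dot_add, dot_single, hv]; push_cast; ring
      have hv0 := Int.fract_nonneg v
      have hvf := Int.floor_add_fract v
      have hfl : ⌊v + (th i.succ - th i.castSucc)⌋ = ⌊v⌋ := by
        rw [Int.floor_eq_iff]; constructor <;> linarith
      have hfr2 : Int.fract (v + (th i.succ - th i.castSucc)) < t := by
        unfold Int.fract; rw [hfl]; linarith
      have q1 := h (x + Pi.single i.castSucc 1) (by rw [sum_add_single]; omega)
        (by rw [e1]; linarith)
      have q2 := h (x + Pi.single i.succ 1) (by rw [sum_add_single]; omega)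
        (by rw [e2]; exact hfr2)
      rw [e1, mon_add, mon_single, pow_one] at q1
      rw [e2, hfl, mon_add, mon_single, pow_one] at q2
      show p (x + Pi.single i.castSucc 1) - p (x + Pi.single i.succ 1) +
        w * (lam i.castSucc - lam i.succ) * (mon lam x * kap ^ (-⌊v⌋)) = 0
      linear_combination q1 - q2
    have key2 : w * (lam (Fin.last m) - lam 0 * kap) = 0 := by
      refine (ih (fun x => p (x + Pi.single (Fin.last m) 1) - p (x + Pi.single 0 1))
        (hp.diff _ _) (w * (lam (Fin.last m) - lam 0 * kap)) (phi + th (Fin.last m)) _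
        ht' ht1' ?_).1
      intro x hx hfr
      obtain ⟨a1, a2⟩ := hth (Fin.last m)
      obtain ⟨b1, b2⟩ := hth 0
      simp only [Fin.val_last, Fin.val_zero, Nat.cast_zero, zero_div, zero_add] at a1 a2 b1 b2
      have a2' : th (Fin.last m) < 1 := by
        have : ((m : ℝ) + 1) / (m + 1) = 1 := div_self hm0.ne'
        linarith
      have hgap0 : 0 ≤ th 0 + 1 - th (Fin.last m) := by linarith
      have hgap : th 0 + 1 - th (Fin.last m) < 2 / (m + 1) := by
        have : (1 : ℝ) / (m + 1) + 1 - (m : ℝ) / (m + 1) = 2 / (m + 1) := by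
          field_simp; ring
        linarith
      set v := dot th x + (phi + th (Fin.last m)) with hv
      set gap := th 0 + 1 - th (Fin.last m) with hgapdef
      have e1 : dot th (x + Pi.single (Fin.last m) 1) + phi = v := by
        rw [dot_add, dot_single, hv]; push_cast; ring
      have e2 : dot th (x + Pi.single 0 1) + phi = (v + gap) - 1 := by
        rw [dot_add, dot_single, hv, hgapdef]; push_cast; ring
      have hv0 := Int.fract_nonneg v
      have hvf := Int.floor_add_fract v
      have hfl : ⌊v + gap⌋ = ⌊v⌋ := by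
        rw [Int.floor_eq_iff]; constructor <;> linarith
      have hfl2 : ⌊v + gap - 1⌋ = ⌊v⌋ - 1 := by
        rw [Int.floor_sub_one, hfl]
      have hfr2 : Int.fract (v + gap - 1) < t := by
        unfold Int.fract; rw [hfl2]; push_cast; linarith
      have q1 := h (x + Pi.single (Fin.last m) 1) (by rw [sum_add_single]; omega)
        (by rw [e1]; linarith)
      have q2 := h (x + Pi.single 0 1) (by rw [sum_add_single]; omega)
        (by rw [e2]; exact hfr2)
      rw [e1, mon_add, mon_single, pow_one] at q1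
      rw [e2, hfl2, mon_add, mon_single, pow_one] at q2
      have e3 : kap ^ (-(⌊v⌋ - 1)) = kap * kap ^ (-⌊v⌋) := by
        rw [neg_sub, sub_eq_add_neg, zpow_add₀ hkap0, zpow_one]
      rw [e3] at q2
      show p (x + Pi.single (Fin.last m) 1) - p (x + Pi.single 0 1) +
        w * (lam (Fin.last m) - lam 0 * kap) * (mon lam x * kap ^ (-⌊v⌋)) = 0
      linear_combination q1 - q2
    have hw : w = 0 := by
      have h1 : ∀ i : Fin (m + 1), w * lam i = w * lam 0 := by
        intro i
        induction i using Fin.induction with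
        | zero => rfl
        | succ i ihi =>
          have := (key1 i).1
          rw [mul_sub, sub_eq_zero] at this
          rw [← this]; exact ihi
      have h2 : w * lam (Fin.last m) = w * lam 0 * kap := by
        rw [mul_sub, sub_eq_zero] at key2
        rw [key2]; ring
      rw [h1] at h2
      have h3 : w * lam 0 * (1 - kap) = 0 := by
        rw [mul_sub, mul_one, ← h2, sub_self]
      rcases mul_eq_zero.1 h3 with h4 | h4
      · rcases mul_eq_zero.1 h4 with h5 | h5
        · exact h5
        · exact absurd h5 (hlam 0)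
      · exact absurd (sub_eq_zero.1 h4).symm hkap
    refine ⟨hw, ?_⟩
    have hmv : ∀ (i : Fin (m + 1)) (x : Fin (m + 1) → ℕ),
        p (x + Pi.single i 1) = p (x + Pi.single 0 1) := by
      intro i
      induction i using Fin.induction with
      | zero => intro x; rfl
      | succ i ihi =>
        intro x
        rw [← sub_eq_zero.1 ((key1 i).2 x)]
        exact ihi x
    have hsum : ∀ x, p x = p (Pi.single 0 (∑ i, x i)) := fun x => eq_of_moves hmv _ x rfl
    have hg : ∀ N, p (Pi.single 0 N) = 0 := by
      apply Deg1.zero (DegLT.restrict 0 hp)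
      intro a ha hb
      show p (Pi.single 0 a) = 0
      obtain ⟨i, hi⟩ := exists_arc hm th hth (th 0 * ((a - 1 : ℕ) : ℝ) + phi)
      set x : Fin (m + 1) → ℕ := Pi.single 0 (a - 1) + Pi.single i 1 with hx
      have hxs : ∑ j, x j = a := by
        rw [hx, sum_add_single]
        have := sum_add_single (0 : Fin (m + 1) → ℕ) 0 (a - 1)
        simp only [zero_add, Pi.zero_apply, Finset.sum_const_zero] at this
        rw [this]; omega
      have hd : dot th x + phi = th 0 * ((a - 1 : ℕ) : ℝ) + phi + th i := by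
        rw [hx, dot_add, dot_single, dot_single]; push_cast; ring
      have q := h x (by rw [hxs]; omega) (by
        rw [hd]
        refine lt_of_lt_of_le hi (le_trans ?_ ht)
        rw [div_le_div_iff_of_pos_right hm0]
        push_cast; nlinarith [Nat.cast_nonneg (α := ℝ) n])
      rw [hw, zero_mul, add_zero, hsum, hxs] at q
      exact q
    intro x
    rw [hsum, hg]

end Pool.Agent.Helper41.ZD
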