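import Mathlib
import Pool.Agent.Helper41.ZD.LemmaM

/-!
# Zero estimate modulo a prime `q`, with the `R`-column included

`bin c l = ∏ i, C(c i, l i)`.  A combination of the functions `bin · l` (`∑ l < X`) and
`bin · a * rho^c * kap^(-⌊al·c + be⌋)` (`∑ a < T ≤ q`) which vanishes on the Bohr set
`{c : ∑ c ≤ A, frac (al·c + be) < t}` is trivial.
-/

namespace Pool.Agent.Helper41.ZD

open Finset

/-- `∏ i, C(c i, l i)`. -/
def bin {r : ℕ} (c l : Fin r → ℕ) : ℕ := ∏ i, (c i).choose (l i)

variable {k : Type*} [Field k]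

theorem bin_zero {r : ℕ} (c : Fin r → ℕ) : bin c 0 = 1 := by simp [bin]

/-- Pascal's rule in direction `i`. -/
theorem bin_pascal {r : ℕ} (c l : Fin r → ℕ) (i : Fin r) :
    bin (c + Pi.single i 1) l = bin c l + if l i = 0 then 0 else bin c (l - Pi.single i 1) := by
  unfold bin
  have hA : ∀ (d : Fin r → ℕ), ∏ j, (d j).choose (l j) =
      (d i).choose (l i) * ∏ j ∈ Finset.univ.erase i, (d j).choose (l j) := fun d =>
    (Finset.mul_prod_erase _ _ (Finset.mem_univ i)).symm
  rw [hA, hA]
  have h1 : ∏ j ∈ Finset.univ.erase i, ((c + Pi.single i 1 : Fin r → ℕ) j).choose (l j) =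
      ∏ j ∈ Finset.univ.erase i, (c j).choose (l j) := by
    apply Finset.prod_congr rfl
    intro j hj
    simp [Pi.single_eq_of_ne (Finset.ne_of_mem_erase hj)]
  rw [h1]
  by_cases h : l i = 0
  · simp [h]
  · rw [if_neg h]
    have h2 : ∏ j, (c j).choose ((l - Pi.single i 1 : Fin r → ℕ) j) =
        (c i).choose (l i - 1) * ∏ j ∈ Finset.univ.erase i, (c j).choose (l j) := by
      rw [← Finset.mul_prod_erase _ _ (Finset.mem_univ i)]
      congr 1
      · simp
      · apply Finset.prod_congr rfl
        intro j hj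
        simp [Pi.single_eq_of_ne (Finset.ne_of_mem_erase hj)]
    rw [h2]
    obtain ⟨s, hs⟩ := Nat.exists_eq_succ_of_ne_zero h
    simp only [Pi.add_apply, Pi.single_eq_same, hs, Nat.succ_eq_add_one, Nat.add_sub_cancel]
    rw [Nat.choose_succ_succ]
    ring

theorem degLT_zero {r : ℕ} : ∀ n : ℕ, DegLT n (fun _ : Fin r → ℕ => (0 : k))
  | 0 => fun _ => rfl
  | n + 1 => fun i => by
      have h := degLT_zero (r := r) n
      show DegLT n (fun _ : Fin r → ℕ => (0 : k) - 0)
      simpa using h

theorem DegLT.add {r : ℕ} : ∀ {n : ℕ} {p q : (Fin r → ℕ) → k}, DegLT n p → DegLT n q →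
    DegLT n (fun x => p x + q x)
  | 0, p, q, hp, hq => by intro x; simp [hp x, hq x]
  | n + 1, p, q, hp, hq => by
      intro i
      have h := DegLT.add (hp i) (hq i)
      have e : (fun x => (fun x => p (x + Pi.single i 1) - p x) x +
          (fun x => q (x + Pi.single i 1) - q x) x) =
          (fun x => (fun x => p x + q x) (x + Pi.single i 1) - (fun x => p x + q x) x) := by
        funext x; simp only; ring
      rw [← e]; exact h

theorem DegLT.smul {r : ℕ} (a : k) : ∀ {n : ℕ} {p : (Fin r → ℕ) → k}, DegLT n p →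
    DegLT n (fun x => a * p x)
  | 0, p, hp => by intro x; simp [hp x]
  | n + 1, p, hp => by
      intro i
      have h := DegLT.smul a (hp i)
      have e : (fun x => a * (fun x => p (x + Pi.single i 1) - p x) x) =
          (fun x => (fun x => a * p x) (x + Pi.single i 1) - (fun x => a * p x) x) := by
        funext x; simp only; ring
      rw [← e]; exact h

theorem DegLT.sum {r : ℕ} {ι : Type*} (s : Finset ι) {n : ℕ} (f : ι → (Fin r → ℕ) → k)
    (h : ∀ i ∈ s, DegLT n (f i)) : DegLT n (fun x => ∑ i ∈ s, f i x) := by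
  classical
  induction s using Finset.induction_on with
  | empty => simpa using degLT_zero n
  | insert a s ha ih =>
    have h1 := h a (Finset.mem_insert_self _ _)
    have h2 := ih fun i hi => h i (Finset.mem_insert_of_mem hi)
    have := h1.add h2
    simpa [Finset.sum_insert ha] using this

/-- `bin · l` has degree `< n` when `∑ l < n`. -/
theorem degLT_bin {r : ℕ} : ∀ (n : ℕ) (l : Fin r → ℕ), ∑ i, l i < n →
    DegLT n (fun x => (bin x l : k))
  | 0, l, h => absurd h (Nat.not_lt_zero _)
  | n + 1, l, h => by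
      intro i
      by_cases hl : l i = 0
      · have e : (fun x : Fin r → ℕ => (bin (x + Pi.single i 1) l : k) - (bin x l : k)) =
            fun _ => 0 := by
          funext x; rw [bin_pascal, if_pos hl]; simp
        show DegLT n (fun x : Fin r → ℕ => (bin (x + Pi.single i 1) l : k) - (bin x l : k))
        rw [e]; exact degLT_zero n
      · have e : (fun x : Fin r → ℕ => (bin (x + Pi.single i 1) l : k) - (bin x l : k)) =
            fun x => (bin x (l - Pi.single i 1) : k) := by
          funext x; rw [bin_pascal, if_neg hl]; push_cast; ring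
        show DegLT n (fun x : Fin r → ℕ => (bin (x + Pi.single i 1) l : k) - (bin x l : k))
        rw [e]
        apply degLT_bin
        have h1 : l = (l - Pi.single i 1) + Pi.single i 1 := by
          funext j
          by_cases hj : j = i
          · subst hj; simp; omega
          · simp [Pi.single_eq_of_ne hj]
        have h2 := sum_add_single (l - Pi.single i 1) i 1
        rw [← h1] at h2
        omega

/-- Triangularity: a finite combination of `bin · l` which vanishes everywhere is trivial. -/
theorem coeff_eq_zero {r : ℕ} (La : Finset (Fin r → ℕ)) (g : (Fin r → ℕ) → k)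
    (h : ∀ x : Fin r → ℕ, ∑ l ∈ La, g l * (bin x l : k) = 0) : ∀ l ∈ La, g l = 0 := by
  classical
  by_contra hcon
  push Not at hcon
  obtain ⟨l0, hl0, hg0⟩ := hcon
  -- choose an index with nonzero coefficient and minimal sum
  have hne : (La.filter fun l => g l ≠ 0).Nonempty := ⟨l0, Finset.mem_filter.2 ⟨hl0, hg0⟩⟩
  obtain ⟨l1, hl1, hmin⟩ := Finset.exists_min_image _ (fun l : Fin r → ℕ => ∑ i, l i) hne
  rw [Finset.mem_filter] at hl1
  have hx := h l1
  rw [Finset.sum_eq_single l1] at hx
  · have : (bin l1 l1 : k) = 1 := by simp [bin]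
    rw [this, mul_one] at hx
    exact hl1.2 hx
  · intro l hl hne'
    by_cases hg : g l = 0
    · rw [hg, zero_mul]
    · have hs := hmin l (Finset.mem_filter.2 ⟨hl, hg⟩)
      have : ∃ i, l1 i < l i := by
        by_contra hc
        push Not at hc
        apply hne'
        have hs2 : ∑ i, l i = ∑ i, l1 i :=
          le_antisymm (Finset.sum_le_sum fun i _ => hc i) hs
        funext i
        exact (Finset.sum_eq_sum_iff_of_le fun i _ => hc i).1 hs2 i (Finset.mem_univ i)
      obtain ⟨i, hi⟩ := this
      have : bin l1 l = 0 := Finset.prod_eq_zero (Finset.mem_univ i) (Nat.choose_eq_zero_of_lt hi)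
      rw [this]; simp
  · intro hcon
    exact absurd hl1.1 hcon

section lucas

variable {q : ℕ} [hq : Fact q.Prime]

theorem lucas {r : ℕ} (e x l : Fin r → ℕ) (he : ∀ i, e i < q) :
    (bin (e + fun i => q * x i) l : ZMod q) =
      (bin e (fun i => l i % q) : ZMod q) * (bin x (fun i => l i / q) : ZMod q) := by
  have hq0 : 0 < q := hq.out.pos
  unfold bin
  push_cast
  rw [← Finset.prod_mul_distrib]
  apply Finset.prod_congr rfl
  intro i _
  have h := Choose.choose_modEq_choose_mod_mul_choose_div_nat (p := q)
    (n := e i + q * x i) (k := l i)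
  have h2 := (ZMod.natCast_eq_natCast_iff _ _ _).2 h
  have e1 : (e i + q * x i) % q = e i := by
    rw [Nat.add_mul_mod_self_left]; exact Nat.mod_eq_of_lt (he i)
  have e2 : (e i + q * x i) / q = x i := by
    rw [Nat.add_mul_div_left _ _ hq0, Nat.div_eq_of_lt (he i), zero_add]
  rw [e1, e2] at h2
  push_cast at h2
  exact h2

theorem mon_frob {r : ℕ} (rho : Fin r → ZMod q) (x : Fin r → ℕ) :
    mon rho (fun i => q * x i) = mon rho x := by
  unfold mon
  apply Finset.prod_congr rfl
  intro i _
  rw [pow_mul, ZMod.pow_card]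

/-- **Zero estimate modulo `q`.** -/
theorem zero_mod {m : ℕ} (hm : 1 ≤ m) (S X T A : ℕ) (hX : X ≤ S * q) (hT : T ≤ q)
    (hA : X + 2 * q ≤ A) (al : Fin (m + 1) → ℝ) (be t : ℝ)
    (n : Fin (m + 1) → ℤ) (th : Fin (m + 1) → ℝ)
    (hal : ∀ i, (q : ℝ) * al i = n i + th i)
    (hth : ∀ i : Fin (m + 1), (i : ℝ) / (m + 1) ≤ th i ∧ th i < ((i : ℝ) + 1) / (m + 1))
    (ht : 2 * ((S : ℝ) + 1) / ((m : ℝ) + 1) ≤ t) (ht1 : t ≤ 1)
    (rho : Fin (m + 1) → ZMod q) (hrho : ∀ i, rho i ≠ 0)
    (kap : ZMod q) (hkap0 : kap ≠ 0) (hkap : kap ≠ 1)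
    (La : Finset (Fin (m + 1) → ℕ)) (hLa : ∀ l ∈ La, ∑ i, l i < X)
    (Lb : Finset (Fin (m + 1) → ℕ)) (hLb : ∀ l ∈ Lb, ∑ i, l i < T)
    (g b : (Fin (m + 1) → ℕ) → ZMod q)
    (h : ∀ c : Fin (m + 1) → ℕ, ∑ i, c i ≤ A → Int.fract (dot al c + be) < t →
      ∑ l ∈ La, g l * (bin c l : ZMod q) +
        (∑ a ∈ Lb, b a * (bin c a : ZMod q)) * (mon rho c * kap ^ (-⌊dot al c + be⌋)) = 0) :
    (∀ l ∈ La, g l = 0) ∧ ∀ a ∈ Lb, b a = 0 := by
  classical
  have hq0 : 0 < q := hq.out.pos
  have hq1 : 1 < q := hq.out.one_lt
  -- residues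
  let res : (Fin (m + 1) → ℕ) → (Fin (m + 1) → ℕ) := fun l i => l i % q
  let J : Finset (Fin (m + 1) → ℕ) :=
    ((La.filter fun l => g l ≠ 0).image res) ∪ (Lb.filter fun a => b a ≠ 0)
  by_contra hcon
  have hJ : J.Nonempty := by
    by_contra hJ
    rw [Finset.not_nonempty_iff_eq_empty] at hJ
    apply hcon
    rw [Finset.union_eq_empty, Finset.image_eq_empty, Finset.filter_eq_empty_iff,
      Finset.filter_eq_empty_iff] at hJ
    exact ⟨fun l hl => by simpa using hJ.1 hl, fun l hl => by simpa using hJ.2 hl⟩
  obtain ⟨e, heJ, hmin⟩ := Finset.exists_min_image J (fun l : Fin (m + 1) → ℕ => ∑ i, l i) hJ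
  have heq : ∀ i, e i < q := by
    intro i
    rcases Finset.mem_union.1 heJ with h1 | h1
    · obtain ⟨l, _, rfl⟩ := Finset.mem_image.1 h1
      exact Nat.mod_lt _ hq0
    · have := hLb e (Finset.mem_filter.1 h1).1
      have h2 : e i ≤ ∑ i, e i := Finset.single_le_sum (fun i _ => Nat.zero_le _)
        (Finset.mem_univ i)
      omega
  -- vanishing from minimality
  have hvan : ∀ l0 : Fin (m + 1) → ℕ, l0 ∈ J → l0 ≠ e → bin e l0 = 0 := by
    intro l0 hl0 hne
    have hs := hmin l0 hl0
    have : ∃ i, e i < l0 i := by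
      by_contra hc
      push Not at hc
      apply hne
      have hs2 : ∑ i, l0 i = ∑ i, e i :=
        le_antisymm (Finset.sum_le_sum fun i _ => hc i) hs
      funext i
      exact (Finset.sum_eq_sum_iff_of_le fun i _ => hc i).1 hs2 i (Finset.mem_univ i)
    obtain ⟨i, hi⟩ := this
    exact Finset.prod_eq_zero (Finset.mem_univ i) (Nat.choose_eq_zero_of_lt hi)
  -- the level data
  let Le : Finset (Fin (m + 1) → ℕ) := La.filter fun l => res l = e
  let p : (Fin (m + 1) → ℕ) → ZMod q := fun x =>
    ∑ l ∈ Le, g l * (bin x (fun i => l i / q) : ZMod q)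
  let be0 : ZMod q := if e ∈ Lb then b e else 0
  let w : ZMod q := be0 * mon rho e
  have hP : ∀ x : Fin (m + 1) → ℕ,
      ∑ l ∈ La, g l * (bin (e + fun i => q * x i) l : ZMod q) = p x := by
    intro x
    show _ = ∑ l ∈ La.filter (fun l => res l = e), g l * (bin x (fun i => l i / q) : ZMod q)
    rw [Finset.sum_filter]
    apply Finset.sum_congr rfl
    intro l hl
    rw [lucas e x l heq]
    by_cases hre : res l = e
    · rw [if_pos hre]
      have : (fun i => l i % q) = e := hre
      rw [this]
      have h1 : bin e e = 1 := by simp [bin]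
      rw [h1]; simp
    · rw [if_neg hre]
      by_cases hg : g l = 0
      · rw [hg, zero_mul]
      · have hmem : res l ∈ J := Finset.mem_union_left _
          (Finset.mem_image_of_mem _ (Finset.mem_filter.2 ⟨hl, hg⟩))
        have h0 : bin e (fun i => l i % q) = 0 := hvan _ hmem hre
        rw [h0]; simp
  have hQ : ∀ x : Fin (m + 1) → ℕ,
      ∑ a ∈ Lb, b a * (bin (e + fun i => q * x i) a : ZMod q) = be0 := by
    intro x
    have h1 : ∀ a ∈ Lb, b a * (bin (e + fun i => q * x i) a : ZMod q) =
        if a = e then b e else 0 := by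
      intro a ha
      have haq : ∀ i, a i < q := by
        intro i
        have := hLb a ha
        have h2 : a i ≤ ∑ i, a i := Finset.single_le_sum (fun i _ => Nat.zero_le _)
          (Finset.mem_univ i)
        omega
      rw [lucas e x a heq]
      have e1 : (fun i => a i % q) = a := by
        funext i; exact Nat.mod_eq_of_lt (haq i)
      have e2 : (fun i => a i / q) = (0 : Fin (m + 1) → ℕ) := by
        funext i; exact Nat.div_eq_of_lt (haq i)
      rw [e1, e2, bin_zero]
      by_cases hae : a = e
      · rw [if_pos hae, hae]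
        have h1 : bin e e = 1 := by simp [bin]
        rw [h1]; simp
      · rw [if_neg hae]
        by_cases hb : b a = 0
        · rw [hb, zero_mul]
        · have hmem : a ∈ J := Finset.mem_union_right _ (Finset.mem_filter.2 ⟨ha, hb⟩)
          rw [hvan _ hmem hae]; simp
    rw [Finset.sum_congr rfl h1, Finset.sum_ite_eq']
  -- number of levels
  set se := ∑ i, e i with hse
  set N : ℕ := (X + q - 1 - se) / q with hN
  have hNS : N ≤ S := by
    rw [hN]
    apply Nat.le_of_lt_succ
    rw [Nat.div_lt_iff_lt_mul hq0]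
    have : S.succ * q = S * q + q := by rw [Nat.succ_eq_add_one]; ring
    omega
  have hdeg : DegLT N p := by
    apply DegLT.sum
    intro l hl
    apply DegLT.smul
    apply degLT_bin
    have hl' := Finset.mem_filter.1 hl
    have h1 := hLa l hl'.1
    have h2 : ∑ i, l i = se + q * ∑ i, l i / q := by
      rw [hse, Finset.mul_sum, ← Finset.sum_add_distrib]
      apply Finset.sum_congr rfl
      intro i _
      have : e i = l i % q := by rw [← hl'.2]
      rw [this]
      exact (Nat.mod_add_div _ _).symm
    rw [hN, Nat.lt_iff_add_one_le, Nat.le_div_iff_mul_le hq0]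
    have h3 : (∑ i, l i / q + 1) * q = q * ∑ i, l i / q + q := by ring
    omega
  have hcost : se + q * (N + 1) ≤ A := by
    have h1 : q * N ≤ X + q - 1 - se := by
      rw [hN]; exact Nat.mul_div_le _ _
    have h2 : q * (N + 1) = q * N + q := by ring
    rcases Finset.mem_union.1 heJ with h3 | h3
    · obtain ⟨l, hl, hle⟩ := Finset.mem_image.1 h3
      have h4 := hLa l (Finset.mem_filter.1 hl).1
      have h5 : se ≤ ∑ i, l i := by
        rw [hse, ← hle]
        exact Finset.sum_le_sum fun i _ => Nat.mod_le _ _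
      omega
    · have := hLb e (Finset.mem_filter.1 h3).1
      omega
  -- the level equation
  let lam : Fin (m + 1) → ZMod q := fun i => rho i * kap ^ (-n i)
  have hlam : ∀ i, lam i ≠ 0 := fun i => mul_ne_zero (hrho i) (zpow_ne_zero _ hkap0)
  have hmonlam : ∀ x : Fin (m + 1) → ℕ,
      mon lam x = mon rho x * kap ^ (-∑ i, n i * (x i : ℤ)) := by
    intro x
    have h1 : ∀ i, lam i ^ x i = rho i ^ x i * kap ^ (-(n i * (x i : ℤ))) := by
      intro i
      show (rho i * kap ^ (-n i)) ^ x i = _
      rw [mul_pow, ← zpow_natCast (kap ^ (-n i)), ← zpow_mul]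
      congr 2
      ring
    unfold mon
    rw [Finset.prod_congr rfl fun i _ => h1 i, Finset.prod_mul_distrib]
    congr 1
    rw [← Finset.sum_neg_distrib]
    induction (Finset.univ : Finset (Fin (m + 1))) using Finset.induction_on with
    | empty => simp
    | insert a s ha ih => rw [Finset.prod_insert ha, Finset.sum_insert ha, ih, zpow_add₀ hkap0]
  have hM := lemmaM hm th hth lam hlam kap hkap0 hkap N p hdeg w (dot al e + be) t
    (by
      refine le_trans ?_ ht
      have : (N : ℝ) ≤ S := by exact_mod_cast hNS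
      gcongr) ht1 (by
      intro x hx hfr
      have hd : dot al (e + fun i => q * x i) + be =
          ((∑ i, n i * (x i : ℤ) : ℤ) : ℝ) + (dot th x + (dot al e + be)) := by
        rw [dot_add]
        have : dot al (fun i => q * x i) = ((∑ i, n i * (x i : ℤ) : ℤ) : ℝ) + dot th x := by
          unfold dot
          push_cast
          rw [← Finset.sum_add_distrib]
          apply Finset.sum_congr rfl
          intro i _
          have := hal i
          calc al i * ((q : ℝ) * (x i : ℝ)) = (q * al i) * x i := by ring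
            _ = _ := by rw [this]; ring
        rw [this]; ring
      have hc := h (e + fun i => q * x i) (by
          have : ∑ i, (e + fun i => q * x i : Fin (m + 1) → ℕ) i = se + q * ∑ i, x i := by
            simp [Finset.sum_add_distrib, Finset.mul_sum, hse]
          rw [this]
          have : q * ∑ i, x i ≤ q * (N + 1) := Nat.mul_le_mul_left _ hx
          omega) (by rw [hd, Int.fract_intCast_add]; exact hfr)
      rw [hP, hQ, hd, Int.floor_intCast_add, mon_add, mon_frob] at hc
      rw [hmonlam]
      have e4 : kap ^ (-(∑ i, n i * (x i : ℤ) + ⌊dot th x + (dot al e + be)⌋)) =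
          kap ^ (-∑ i, n i * (x i : ℤ)) * kap ^ (-⌊dot th x + (dot al e + be)⌋) := by
        rw [neg_add, zpow_add₀ hkap0]
      rw [e4] at hc
      show p x + be0 * mon rho e * _ = 0
      rw [← hc]; ring)
  obtain ⟨hw, hp0⟩ := hM
  rcases Finset.mem_union.1 heJ with h3 | h3
  · obtain ⟨l, hl, hle⟩ := Finset.mem_image.1 h3
    have hl' := Finset.mem_filter.1 hl
    -- coefficients of the level polynomial
    have hinj : Set.InjOn (fun l : Fin (m + 1) → ℕ => fun i => l i / q) (Le : Set _) := by
      intro l1 h1 l2 h2 h12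
      have h1' : res l1 = e := (Finset.mem_filter.1 h1).2
      have h2' : res l2 = e := (Finset.mem_filter.1 h2).2
      funext i
      have a1 : l1 i % q = l2 i % q := by
        have := congrFun (h1'.trans h2'.symm) i
        exact this
      have a2 : l1 i / q = l2 i / q := congrFun h12 i
      rw [← Nat.mod_add_div (l1 i) q, ← Nat.mod_add_div (l2 i) q, a1, a2]
    have hz := coeff_eq_zero (k := ZMod q) (Le.image fun l => fun i => l i / q)
      (fun y => g (fun i => e i + q * y i)) (by
        intro x
        rw [Finset.sum_image hinj]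
        rw [← hp0 x]
        apply Finset.sum_congr rfl
        intro l1 h1
        have h1' : res l1 = e := (Finset.mem_filter.1 h1).2
        have : (fun i => e i + q * (l1 i / q)) = l1 := by
          funext i
          have : e i = l1 i % q := by rw [← h1']
          rw [this]; exact Nat.mod_add_div _ _
        rw [this])
    have hlLe : l ∈ Le := Finset.mem_filter.2 ⟨hl'.1, hle⟩
    have := hz _ (Finset.mem_image_of_mem _ hlLe)
    have e5 : (fun i => e i + q * (l i / q)) = l := by
      funext i
      have : e i = l i % q := by rw [← hle]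
      rw [this]; exact Nat.mod_add_div _ _
    simp only [e5] at this
    exact hl'.2 this
  · have h4 := Finset.mem_filter.1 h3
    have : be0 = b e := if_pos h4.1
    rcases mul_eq_zero.1 hw with h5 | h5
    · exact h4.2 (this ▸ h5)
    · exact mon_ne_zero hrho _ h5

end lucas

end Pool.Agent.Helper41.ZD
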